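import Pool.Agent.H256.RD.Main
import Pool.Agent.H256.RD.En
import Pool.Agent.H256.RD.Mol
import Pool.Agent.H256.RD.Rad
import Pool.Agent.H256.RD.C1
import Pool.Agent.H256.RD.Hyp
import Pool.Agent.H256.RD.Ord
import Pool.Agent.H256.RD.Ana
import Pool.Agent.H256.RD.Root
import Pool.Agent.H256.RD.Rep

/-!
# MP_375441_an: the Radó property for all elliptic operators in the plane

Q1 in dimension `n = 2`, in full: every order `p`, all (complex valued) real analytic coefficients.
-/

open MeasureTheory Set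
open scoped ContDiff

namespace Pool.Agent.Results.MP_375441_an.PlaneRado

open Pool.Agent.H256.RD

/-- Let `X ⊆ ℝ²` be open and let `P = ∑_{i+j ≤ p} a_{ij} D₁^i D₂^j` (`p ≥ 1`) be elliptic on `X`
with real analytic complex valued coefficients. If `O ⊆ X` is open, `f ∈ C^{p-1}(O)` and `P f = 0`
in the sense of distributions on `O ∖ f⁻¹(0)`, then `P f = 0` on `O`. -/
theorem result {p : ℕ} (hp : 1 ≤ p) {X : Set Pl} (hX : IsOpen X) (a : ℕ → ℕ → Pl → ℂ)
    (ha : ∀ i j, AnalyticOnNhd ℝ (a i j) X) (hell : Elliptic p a X)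
    {O : Set Pl} (hO : IsOpen O) (hOX : O ⊆ X) (f : Pl → ℂ)
    (hf : ContDiffOn ℝ (p - 1 : ℕ) f O) (hz : PZero p a f (O \ {x | f x = 0})) :
    PZero p a f O :=
  main loc (ord loc (hyp c1)) ana (rad en mol) rep rep2 root p hp X hX a ha hell O hO hOX f hf hz

end Pool.Agent.Results.MP_375441_an.PlaneRado
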