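import Pool.Agent.H256.RN.Main
import Pool.Agent.H256.RN.En
import Pool.Agent.H256.RN.Mol
import Pool.Agent.H256.RN.Rad
import Pool.Agent.H256.RN.C1
import Pool.Agent.H256.RN.Hyp
import Pool.Agent.H256.RN.Ord
import Pool.Agent.H256.RN.Rep

/-!
# MP_375441_an: the Radó property in every dimension for operators with a real quadratic factor

`P = L ∘ Q + R` with `L` a real elliptic operator of order two, `Q` any operator of order `≤ p - 2`
and `R` any operator of order `≤ p - 1`, all with smooth coefficients.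
-/

open MeasureTheory Set
open scoped ContDiff

namespace Pool.Agent.Results.MP_375441_an.QuadraticFactor

open Pool.Agent.H256.RN

/-- Let `O ⊆ ℝⁿ` be open, `p ≥ 2`, `L = ∑ q_{ij} D_i D_j` with a smooth real symmetric positive
definite matrix `q` on `O`, `Q` an operator of order `≤ p - 2` and `R` an operator of order
`≤ p - 1` with smooth complex valued coefficients on `O`, `P = L ∘ Q + R`. If `f ∈ C^{p-1}(O)` and
`P f = 0` in the sense of distributions on `O ∖ f⁻¹(0)`, then `P f = 0` on `O`. -/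
theorem result {n p : ℕ} (hp : 2 ≤ p) {O : Set (Rn n)} (hO : IsOpen O)
    (q : Fin n → Fin n → Rn n → ℝ) (b c : List (Fin n) → Rn n → ℂ)
    (hq : ∀ i j, ContDiffOn ℝ ∞ (q i j) O) (hb : ∀ w, ContDiffOn ℝ ∞ (b w) O)
    (hc : ∀ w, ContDiffOn ℝ ∞ (c w) O) (hsym : ∀ i j x, q i j x = q j i x)
    (hpos : ∀ x ∈ O, ∀ ξ : Rn n, ξ ≠ 0 → 0 < ∑ i, ∑ j, q i j x * ξ i * ξ j)
    (f : Rn n → ℂ) (hf : ContDiffOn ℝ (p - 1 : ℕ) f O)
    (hz : PZero p q b c f (O \ {x | f x = 0})) : PZero p q b c f O :=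
  main n (loc n) (ord n (loc n) (hyp n (c1 n))) (rad n (en n) (mol n)) (rep n) (jet n) p hp O hO
    q b c hq hb hc hsym hpos f hf hz

end Pool.Agent.Results.MP_375441_an.QuadraticFactor
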